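import Pool.Agent.Y707.SF.Defs

/-!
# Examples of pencils of surfaces

The pencil `(X ^ m + w) ∏ (X - j) + t ^ (2 n (2 g + 1))`, `m + r = 2 g + 1`.
-/

set_option autoImplicit false
set_option maxHeartbeats 1000000

namespace Pool.Agent.X293.SP

open Polynomial NumberField
open Pool.Agent.Y707.SF
open Pool.Agent.Y707.PC (IsConstSq pen)

section clear
variable {B : Type} [CommRing B] [IsDomain B]

/-- clearing the denominators -/
theorem clear {f g : B[X]}
    (h : IsCoprime (f.map (algebraMap B (FractionRing B))) (g.map (algebraMap B (FractionRing B)))) :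
    ∃ d : B, d ≠ 0 ∧ C d ∈ Ideal.span {f, g} := by
  obtain ⟨u, v, huv⟩ := h
  obtain ⟨b, hb0, hb⟩ := IsLocalization.integerNormalization_spec (nonZeroDivisors B) u
  obtain ⟨c, hc0, hc⟩ := IsLocalization.integerNormalization_spec (nonZeroDivisors B) v
  set u' := IsLocalization.integerNormalization (nonZeroDivisors B) u
  set v' := IsLocalization.integerNormalization (nonZeroDivisors B) v
  refine ⟨b * c, mul_ne_zero (nonZeroDivisors.ne_zero hb0) (nonZeroDivisors.ne_zero hc0), ?_⟩
  rw [Ideal.mem_span_pair]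
  refine ⟨C (c : B) * u', C (b : B) * v', ?_⟩
  apply Polynomial.map_injective (algebraMap B (FractionRing B))
    (IsFractionRing.injective B (FractionRing B))
  have hb' : (b : B) • u = C (algebraMap B (FractionRing B) b) * u := by
    rw [← Polynomial.smul_eq_C_mul, algebraMap_smul]
  have hc' : (c : B) • v = C (algebraMap B (FractionRing B) c) * v := by
    rw [← Polynomial.smul_eq_C_mul, algebraMap_smul]
  rw [Polynomial.map_add, Polynomial.map_mul, Polynomial.map_mul, Polynomial.map_mul,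
    Polynomial.map_mul, hb, hc, Polynomial.map_C, Polynomial.map_C, Polynomial.map_C, hb', hc',
    map_mul, C_mul]
  linear_combination (C (algebraMap B (FractionRing B) b) * C (algebraMap B (FractionRing B) c)) * huv

end clear

section sep
variable {A : Type} [CommRing A]

/-- `∏ (X - j)` -/
noncomputable def P (A : Type) [CommRing A] (r : ℕ) : A[X] := ∏ j : Fin r, (X - C ((j : ℕ) : A))

theorem P_map {D : Type} [CommRing D] (φ : A →+* D) (r : ℕ) : (P A r).map φ = P D r := by
  unfold P
  rw [Polynomial.map_prod]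
  refine Finset.prod_congr rfl fun j _ => ?_
  rw [Polynomial.map_sub, Polynomial.map_X, Polynomial.map_C, map_natCast]

theorem P_monic (A : Type) [CommRing A] (r : ℕ) : (P A r).Monic :=
  monic_prod_of_monic _ _ fun _ _ => monic_X_sub_C _

theorem P_deg (A : Type) [CommRing A] [Nontrivial A] (r : ℕ) : (P A r).natDegree = r := by
  unfold P
  rw [natDegree_prod_of_monic _ _ fun _ _ => monic_X_sub_C _]
  rw [Finset.sum_congr rfl fun j _ => natDegree_X_sub_C _]
  simp

/-- `(X ^ m + w) ∏ (X - j)` -/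
noncomputable def Q (A : Type) [CommRing A] (m r : ℕ) (w : A) : A[X] := (X ^ m + C w) * P A r

theorem Q_map {D : Type} [CommRing D] (φ : A →+* D) (m r : ℕ) (w : A) :
    (Q A m r w).map φ = Q D m r (φ w) := by
  unfold Q
  rw [Polynomial.map_mul, P_map, Polynomial.map_add, Polynomial.map_pow, Polynomial.map_X,
    Polynomial.map_C]

theorem Q_monic (m r : ℕ) (hm : 1 ≤ m) (w : A) : (Q A m r w).Monic :=
  (monic_X_pow_add_C w (by omega)).mul (P_monic A r)

theorem Q_deg [Nontrivial A] (m r : ℕ) (w : A) : (Q A m r w).natDegree ≤ m + r := by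
  unfold Q
  refine natDegree_mul_le.trans ?_
  rw [P_deg]
  refine Nat.add_le_add_right ((natDegree_add_le _ _).trans (max_le ?_ ?_)) r
  · rw [natDegree_X_pow]
  · rw [natDegree_C]
    exact Nat.zero_le _

theorem sep [IsDomain A] [CharZero A] (m r : ℕ) (hm : 1 ≤ m) :
    ((Q A[X] m r X).map (algebraMap A[X] (FractionRing A[X]))).Separable := by
  set F := FractionRing A[X]
  have hinj : Function.Injective (algebraMap A[X] F) := IsFractionRing.injective A[X] F
  have hF : CharZero F := charZero_of_injective_ringHom (f := (algebraMap A[X] F).comp C)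
    (hinj.comp C_injective)
  have e : (Q A[X] m r X).map (algebraMap A[X] F) =
      (X ^ m - C (-(algebraMap A[X] F X))) * ∏ j : Fin r, (X - C ((j : ℕ) : F)) := by
    rw [Q_map, C_neg, sub_neg_eq_add]
    rfl
  rw [e]
  have hw : algebraMap A[X] F X ≠ 0 := by
    rw [Ne, map_eq_zero_iff _ hinj]
    exact X_ne_zero
  refine Separable.mul ?_ ?_ ?_
  · exact separable_X_pow_sub_C _ (by exact_mod_cast (by omega : m ≠ 0)) (neg_ne_zero.2 hw)
  · rw [separable_prod_X_sub_C_iff]
    intro i j hij
    exact Fin.ext (Nat.cast_injective (R := F) hij)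
  · refine IsCoprime.prod_right fun j _ => ?_
    refine IsCoprime.symm ((irreducible_X_sub_C _).coprime_iff_not_dvd.2 fun h => ?_)
    rw [dvd_iff_isRoot, IsRoot.def, eval_sub, eval_pow, eval_X, eval_C, sub_neg_eq_add] at h
    have h1 : algebraMap A[X] F (C (((j : ℕ) : A) ^ m) + X) = 0 := by
      rw [map_add, C_pow, map_pow, map_natCast, map_natCast]
      exact h
    rw [map_eq_zero_iff _ hinj] at h1
    have h2 := congrArg (fun p => p.coeff 1) h1
    rw [coeff_add, coeff_C_of_ne_zero one_ne_zero, coeff_X_one, zero_add, coeff_zero] at h2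
    exact one_ne_zero h2

/-- a nonzero element of the ideal of `Q` and its derivative -/
theorem exists_disc [IsDomain A] [CharZero A] (m r : ℕ) (hm : 1 ≤ m) :
    ∃ d : A[X], d ≠ 0 ∧ C d ∈ Ideal.span {Q A[X] m r X, derivative (Q A[X] m r X)} := by
  apply clear
  rw [← derivative_map]
  exact sep m r hm

end sep

section example1
variable {K : Type} [Field K] [NumberField K] {k l r g n : ℕ}

/-- `X ^ m ∏ (X - j) + t ^ M` -/
noncomputable def exA (K : Type) [Field K] [NumberField K] (k m r M : ℕ) :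
    (MvPolynomial (Fin k) (𝓞 K))[X][X] :=
  X ^ m * P (MvPolynomial (Fin k) (𝓞 K))[X] r + C (X ^ M)

/-- the sections `X = j` -/
noncomputable def exS (K : Type) [Field K] [NumberField K] (k r : ℕ) :
    Fin r → (MvPolynomial (Fin k) (𝓞 K))[X] := fun j => ((j : ℕ) : (MvPolynomial (Fin k) (𝓞 K))[X])

theorem dt_const {B : Type} [CommRing B] (f : B[X]) : dt (f.map C) = 0 := by
  unfold dt
  rw [Bivariate.swap_map_C, derivative_C, map_zero]

theorem pen_ex {D B : Type} [CommRing D] [CommRing B] (φ : D →+* B) (c : D) (m r : ℕ) (w : B) :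
    pen (X ^ m * P D r + C c) (fun j : Fin r => ((j : ℕ) : D)) φ w = Q B m r w + C (φ c) := by
  unfold pen
  rw [Polynomial.map_add, Polynomial.map_mul, Polynomial.map_pow, Polynomial.map_X, P_map,
    Polynomial.map_C]
  have e2 : ∏ j : Fin r, ((X : B[X]) - C (φ ((j : ℕ) : D))) = P B r := by
    unfold P
    refine Finset.prod_congr rfl fun j _ => ?_
    rw [map_natCast]
  rw [e2]
  unfold Q
  ring

theorem family_ex (K : Type) [Field K] [NumberField K] (k m r M : ℕ) :
    family (exA K k m r M) (exS K k r) =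
      (Q (MvPolynomial (Fin k) (𝓞 K))[X] m r X).map C + C (X ^ M) := by
  have h1 := pen_ex (D := (MvPolynomial (Fin k) (𝓞 K))[X])
    (B := (MvPolynomial (Fin k) (𝓞 K))[X][X]) (mapRingHom (C : MvPolynomial (Fin k) (𝓞 K) →+*
    (MvPolynomial (Fin k) (𝓞 K))[X])) (X ^ M) m r (C X)
  have h2 : (Q (MvPolynomial (Fin k) (𝓞 K))[X] m r X).map C =
      Q (MvPolynomial (Fin k) (𝓞 K))[X][X] m r (C X) := Q_map C m r X
  rw [h2]
  refine h1.trans ?_
  rw [map_pow, coe_mapRingHom, Polynomial.map_X]

section ideal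
variable {B : Type} [CommRing B]

/-- `F = Q(X) + t ^ M` -/
noncomputable def FF (q : B[X]) (M : ℕ) : B[X][X] := q.map C + C (X ^ M)

theorem dX_FF (q : B[X]) (M : ℕ) : derivative (FF q M) = (derivative q).map C := by
  unfold FF
  rw [derivative_add, derivative_C, add_zero, derivative_map]

theorem dt_FF (q : B[X]) (M : ℕ) : dt (FF q M) = C (C (M : B) * X ^ (M - 1)) := by
  unfold FF
  rw [dt_add, dt_const, zero_add, dt_C, derivative_X_pow]

theorem mem_FF {q : B[X]} {M : ℕ} (hM : 1 ≤ M) {d : B}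
    (hd : C d ∈ Ideal.span {q, derivative q}) :
    C (C ((M : B) * d)) ∈ Ideal.span {FF q M, derivative (FF q M), dt (FF q M)} := by
  rw [Ideal.mem_span_pair] at hd
  obtain ⟨u, v, huv⟩ := hd
  have h1 : (u.map C) * q.map C + (v.map C) * (derivative q).map C = (C (C d) : B[X][X]) := by
    rw [← Polynomial.map_mul, ← Polynomial.map_mul, ← Polynomial.map_add, huv, Polynomial.map_C]
  have h2 : (C (C (M : B)) : B[X][X]) * q.map C =
      C (C (M : B)) * FF q M - C X * dt (FF q M) := by
    rw [dt_FF]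
    unfold FF
    obtain ⟨N, rfl⟩ : ∃ N, M = N + 1 := ⟨M - 1, by omega⟩
    rw [Nat.add_sub_cancel, map_mul, pow_succ, map_mul]
    ring
  rw [Ideal.mem_span_insert]
  refine ⟨C (C (M : B)) * u.map C, C (C (M : B)) * v.map C * derivative (FF q M) -
    u.map C * C X * dt (FF q M), ?_, ?_⟩
  · rw [Ideal.mem_span_pair]
    exact ⟨C (C (M : B)) * v.map C, -(u.map C * C X), by ring⟩
  · rw [dX_FF, map_mul, map_mul, ← h1]
    linear_combination (u.map C) * h2

theorem atInf_FF {g n : ℕ} {q : B[X]} (hn : 1 ≤ n) (hq : q.natDegree ≤ 2 * g + 1)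
    (hq1 : q.coeff (2 * g + 1) = 1) :
    atInfinity g n (FF q (2 * n * (2 * g + 1))) = X ^ (2 * g + 1) + 1 := by
  have hcoef : ∀ i, ((FF q (2 * n * (2 * g + 1))).coeff i).coeff (2 * n * (2 * g + 1 - i)) =
      (if i = 2 * g + 1 then 1 else 0) + if i = 0 then 1 else 0 := by
    intro i
    unfold FF
    rw [coeff_add, coeff_map, coeff_add, coeff_C, coeff_C]
    have e2 : ((if i = 0 then (X ^ (2 * n * (2 * g + 1)) : B[X]) else 0)).coeff
        (2 * n * (2 * g + 1 - i)) = if i = 0 then 1 else 0 := by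
      split_ifs with h0
      · rw [h0, Nat.sub_zero, coeff_X_pow_self]
      · rw [coeff_zero]
    rw [e2]
    congr 1
    by_cases hi : i = 2 * g + 1
    · rw [if_pos hi, hi, Nat.sub_self, mul_zero, if_pos rfl, hq1]
    · rw [if_neg hi]
      split_ifs with h1
      · have h2 : 2 * g + 1 - i = 0 := by
          rcases Nat.mul_eq_zero.1 h1 with h3 | h3
          · omega
          · exact h3
        exact coeff_eq_zero_of_natDegree_lt (by omega)
      · rfl
  unfold atInfinity
  rw [Finset.sum_congr rfl fun i _ => by rw [hcoef i]]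
  rw [Finset.sum_congr rfl fun i _ => map_add (monomial i) _ _, Finset.sum_add_distrib]
  congr 1
  · rw [Finset.sum_eq_single (2 * g + 1)]
    · rw [if_pos rfl, ← X_pow_eq_monomial]
    · intro i _ hi
      rw [if_neg hi, map_zero]
    · intro h
      exact absurd (Finset.mem_range.2 (by omega)) h
  · rw [Finset.sum_eq_single 0]
    · rw [if_pos rfl, monomial_zero_left, C_1]
    · intro i _ hi
      rw [if_neg hi, map_zero]
    · intro h
      exact absurd (Finset.mem_range.2 (by omega)) h

theorem mulr {I : Ideal B} {x y : B} (h : x ∈ I) : x * y ∈ I := I.mul_mem_right y h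

theorem inf_mem (g : ℕ) : (C ((2 * g + 1 : ℕ) : B) : B[X]) ∈
    Ideal.span {X ^ (2 * g + 1) + 1, derivative (X ^ (2 * g + 1) + 1 : B[X])} := by
  rw [Ideal.mem_span_pair]
  refine ⟨C ((2 * g + 1 : ℕ) : B), -X, ?_⟩
  rw [derivative_add, derivative_X_pow, derivative_one, add_zero, Nat.add_sub_cancel, pow_succ]
  ring

end ideal

theorem eval_ex (K : Type) [Field K] [NumberField K] (k m M : ℕ) {r : ℕ} (j : Fin r) :
    (exA K k m r M).eval (exS K k r j) = X ^ M := by
  unfold exA exS P
  rw [eval_add, eval_mul, eval_C, eval_prod, Finset.prod_eq_zero (Finset.mem_univ j), mul_zero,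
    zero_add]
  rw [eval_sub, eval_X, eval_C, sub_self]

/-- **The examples.** -/
theorem example_pencil (G : Fin l → MvPolynomial (Fin k) (𝓞 K))
    (hG : ∀ S : Finset (Fin l), S.Nonempty → ¬ IsConstSq (∏ i ∈ S, G i)) (hn : 1 ≤ n)
    (hr : r ≤ 2 * g) :
    IsSurfacePencil g n G (exA K k (2 * g + 1 - r) r (2 * n * (2 * g + 1))) (exS K k r) := by
  set m := 2 * g + 1 - r with hm
  have hm1 : 1 ≤ m := by omega
  have hmr : m + r = 2 * g + 1 := by omega
  have hM1 : 1 ≤ 2 * n * (2 * g + 1) := Nat.mul_pos (by omega) (by omega)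
  obtain ⟨d, hd0, hd⟩ := exists_disc (A := MvPolynomial (Fin k) (𝓞 K)) m r hm1
  have hfam : family (exA K k m r (2 * n * (2 * g + 1))) (exS K k r) =
      FF (Q (MvPolynomial (Fin k) (𝓞 K))[X] m r X) (2 * n * (2 * g + 1)) := family_ex K k m r _
  have hmonQ : (Q (MvPolynomial (Fin k) (𝓞 K))[X] m r X).Monic := Q_monic m r hm1 X
  have hdegQ : (Q (MvPolynomial (Fin k) (𝓞 K))[X] m r X).natDegree = 2 * g + 1 := by
    unfold Q
    rw [(monic_X_pow_add_C _ (by omega)).natDegree_mul (P_monic _ r), natDegree_X_pow_add_C, P_deg]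
    exact hmr
  have hmonA : (X ^ m * P (MvPolynomial (Fin k) (𝓞 K))[X] r).Monic :=
    (monic_X_pow m).mul (P_monic _ r)
  have hdegA : (X ^ m * P (MvPolynomial (Fin k) (𝓞 K))[X] r).natDegree = 2 * g + 1 := by
    rw [(monic_X_pow m).natDegree_mul (P_monic _ r), natDegree_X_pow, P_deg]
    exact hmr
  have hlt : (C (X ^ (2 * n * (2 * g + 1))) : (MvPolynomial (Fin k) (𝓞 K))[X][X]).degree <
      (X ^ m * P (MvPolynomial (Fin k) (𝓞 K))[X] r).degree := by
    apply degree_lt_degree
    rw [natDegree_C, hdegA]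
    omega
  have hmon : (exA K k m r (2 * n * (2 * g + 1))).Monic := hmonA.add_of_left hlt
  have hdeg : (exA K k m r (2 * n * (2 * g + 1))).natDegree = 2 * g + 1 := by
    unfold exA
    rw [natDegree_add_eq_left_of_degree_lt hlt, hdegA]
  refine ⟨hG, hn, hmon, hdeg, ⟨hdeg.le, ?_⟩, hr, ?_, ?_, ?_, ?_⟩
  · intro i hi
    have hdD : ∀ i, ((X ^ m * P (MvPolynomial (Fin k) (𝓞 K))[X] r).coeff i).natDegree = 0 := by
      intro i
      have h1 : (X ^ m * P (MvPolynomial (Fin k) (𝓞 K))[X] r) =
          (X ^ m * P (MvPolynomial (Fin k) (𝓞 K)) r).map C := by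
        rw [Polynomial.map_mul, Polynomial.map_pow, Polynomial.map_X, P_map]
      rw [h1, coeff_map, natDegree_C]
    unfold exA
    rw [coeff_add, coeff_C]
    by_cases h0 : i = 0
    · rw [if_pos h0]
      have h2 : ((X ^ m * P (MvPolynomial (Fin k) (𝓞 K))[X] r).coeff i +
          X ^ (2 * n * (2 * g + 1))).natDegree ≤ 2 * n * (2 * g + 1) := by
        refine (natDegree_add_le _ _).trans (max_le ?_ ?_)
        · rw [hdD]
          exact Nat.zero_le _
        · rw [natDegree_X_pow]
      rw [h0] at h2 ⊢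
      omega
    · rw [if_neg h0, add_zero, hdD, zero_add]
      exact Nat.mul_le_mul_left _ hi
  · intro j
    unfold exS
    rw [natDegree_natCast]
    exact Nat.zero_le _
  · intro i j hij
    exact Fin.ext (Nat.cast_injective (R := (MvPolynomial (Fin k) (𝓞 K))[X]) hij)
  · intro j
    rw [eval_ex]
    exact pow_ne_zero _ X_ne_zero
  · refine ⟨C (((2 * g + 1 : ℕ) : MvPolynomial (Fin k) (𝓞 K))) *
      (((2 * n * (2 * g + 1) : ℕ) : (MvPolynomial (Fin k) (𝓞 K))[X]) * d), ?_, ?_, ?_⟩
    · refine mul_ne_zero ?_ (mul_ne_zero ?_ hd0)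
      · rw [Ne, C_eq_zero]
        exact Nat.cast_ne_zero.2 (by omega)
      · exact Nat.cast_ne_zero.2 (by omega)
    · rw [hfam, map_mul, map_mul]
      exact Ideal.mul_mem_left _ _ (mem_FF hM1 hd)
    · rw [hfam, atInf_FF hn hdegQ.le (by rw [← hdegQ]; exact hmonQ), map_mul]
      have h3 := inf_mem (B := (MvPolynomial (Fin k) (𝓞 K))[X]) g
      have h4 : (C (((2 * g + 1 : ℕ) : MvPolynomial (Fin k) (𝓞 K))) :
          (MvPolynomial (Fin k) (𝓞 K))[X]) = ((2 * g + 1 : ℕ) : (MvPolynomial (Fin k) (𝓞 K))[X]) :=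
        map_natCast C _
      refine mulr ?_
      exact h4.symm ▸ h3

theorem classes_ex (G : Fin l → MvPolynomial (Fin k) (𝓞 K)) (m N : ℕ)
    (E : IntermediateField K (AlgebraicClosure K)) :
    classes G (exA K k m r (2 * N)) (exS K k r) E = r := by
  unfold classes
  have h : ∀ j : Fin r, ∃ S : Finset (Fin l), IsSquare
      (((exA K k m r (2 * N)).eval (exS K k r j) * C (∏ i ∈ S, G i)).map
        (MvPolynomial.map ((algebraMap K E).comp (algebraMap (𝓞 K) K)))) := by
    intro j
    refine ⟨∅, X ^ N, ?_⟩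
    rw [eval_ex, Finset.prod_empty, C_1, mul_one, Polynomial.map_pow, Polynomial.map_X]
    ring
  rw [Nat.card_congr (Equiv.subtypeUnivEquiv h), Nat.card_eq_fintype_card, Fintype.card_fin]

end example1

end Pool.Agent.X293.SP
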